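import Pool.Agent.Lib.MP_5d0ca0_al.Ins.Sub

/-!
# MP_5d0ca0_al: for every prime p, a just infinite pro-p group whose closed subnormal subgroups
are finitely generated and, if nontrivial, of infinite virtual length
-/

set_option autoImplicit false

namespace Pool.Agent.Results.MP_5d0ca0_al.AllPrimes

/-- s(0), ..., s(n) is a subnormal series of closed subgroups with last term T -/
def IsSeries {G : Type} [Group G] [TopologicalSpace G] {n : ℕ} (s : Fin (n + 1) → Subgroup G)
    (T : Subgroup G) : Prop :=
  s (Fin.last n) = T ∧ IsClosed (T : Set G) ∧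
    ∀ i : Fin n, IsClosed (s i.castSucc : Set G) ∧ s i.castSucc ≤ s i.succ ∧
      ((s i.castSucc).subgroupOf (s i.succ)).Normal

/-- the infinite-length: the number of steps of infinite index -/
noncomputable def infiniteLength {G : Type} [Group G] {n : ℕ} (s : Fin (n + 1) → Subgroup G) : ℕ :=
  (Finset.univ.filter (fun i : Fin n => (s i.castSucc).relIndex (s i.succ) = 0)).card

/-- closed subnormal subgroups: the bottom terms of the subnormal series of closed subgroups
with top term the whole group -/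
def ClosedSubnormal {G : Type} [Group G] [TopologicalSpace G] (H : Subgroup G) : Prop :=
  ∃ (n : ℕ) (s : Fin (n + 1) → Subgroup G), s 0 = H ∧ IsSeries s ⊤

/-- the virtual length of T is infinite: there are subnormal series of closed subgroups from the
trivial group to T of arbitrarily large infinite-length -/
def InfiniteVirtualLength {G : Type} [Group G] [TopologicalSpace G] (T : Subgroup G) : Prop :=
  ∀ m : ℕ, ∃ (n : ℕ) (s : Fin (n + 1) → Subgroup G), s 0 = ⊥ ∧ IsSeries s T ∧
    m ≤ infiniteLength s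

/-- For every prime p there is an infinite pro-p group G (compact, Hausdorff, totally disconnected,
every open normal subgroup has index a power of p) such that every nontrivial closed normal
subgroup has finite index, every closed subnormal subgroup is topologically finitely
generated, and every nontrivial closed subnormal subgroup, in particular G itself, has infinite
virtual length. -/
theorem result (p : ℕ) (hp : p.Prime) :
    ∃ (G : Type) (_ : Group G) (_ : TopologicalSpace G) (_ : IsTopologicalGroup G)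
      (_ : CompactSpace G) (_ : T2Space G) (_ : TotallyDisconnectedSpace G),
      Infinite G ∧
      (∀ N : Subgroup G, IsOpen (N : Set G) → N.Normal → ∃ k : ℕ, N.index = p ^ k) ∧
      (∀ M : Subgroup G, IsClosed (M : Set G) → M.Normal → M ≠ ⊥ → M.FiniteIndex) ∧
      (∀ H : Subgroup G, ClosedSubnormal H →
        ∃ S : Finset G, (Subgroup.closure (S : Set G)).topologicalClosure = H) ∧
      (∀ H : Subgroup G, ClosedSubnormal H → H ≠ ⊥ → InfiniteVirtualLength H) ∧
      InfiniteVirtualLength (⊤ : Subgroup G) := by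
  obtain ⟨q, hq⟩ : ∃ q : ℕ, q + 3 = p ^ 2 := by
    have h : 2 ^ 2 ≤ p ^ 2 := Nat.pow_le_pow_left hp.two_le 2
    exact ⟨p ^ 2 - 3, by omega⟩
  have hinf : Infinite (Pool.Agent.Lib.MP_5d0ca0_al.Ins.GG (q := q)) := by
    have h := Pool.Agent.Lib.MP_5d0ca0_al.Ins.KK_infinite (q := q)
    exact Infinite.of_injective
      (Subgroup.inclusion (Pool.Agent.Lib.MP_5d0ca0_al.Ins.KK_le_GG (q := q)))
      (Subgroup.inclusion_injective _)
  have hsub : ∀ H : Subgroup (Pool.Agent.Lib.MP_5d0ca0_al.Ins.GG (q := q)), ClosedSubnormal H →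
      H ≠ ⊥ → InfiniteVirtualLength H := by
    rintro H ⟨n, s, rfl, hs1, hs2, hs3⟩ hne m
    have hc : IsClosed (s 0 : Set (Pool.Agent.Lib.MP_5d0ca0_al.Ins.GG (q := q))) := by
      cases n with
      | zero =>
        have h0 : s 0 = ⊤ := hs1
        rw [h0]
        exact hs2
      | succ n => exact (hs3 0).1
    obtain ⟨k, t, h0, h1, h2, h3⟩ :=
      Pool.Agent.Lib.MP_5d0ca0_al.Ins.chain_sub n s hs1 hs3 hc hne m
    exact ⟨k, t, h0, ⟨h1, hc, h2⟩, h3⟩
  refine ⟨Pool.Agent.Lib.MP_5d0ca0_al.Ins.GG (q := q), inferInstance, inferInstance,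
    inferInstance, inferInstance, inferInstance, inferInstance, hinf, ?_, ?_, ?_, hsub, ?_⟩
  · intro N hNo hN
    exact Pool.Agent.Lib.MP_5d0ca0_al.Ins.index_pow hp hq N hNo hN
  · intro M hM hn hne
    exact Pool.Agent.Lib.MP_5d0ca0_al.Ins.JI M hn hM hne
  · rintro H ⟨n, s, h0, h1, h2, h3⟩
    have h := Pool.Agent.Lib.MP_5d0ca0_al.subnormal_tfg
      Pool.Agent.Lib.MP_5d0ca0_al.Ins.TFG_top Pool.Agent.Lib.MP_5d0ca0_al.Ins.JI
      Pool.Agent.Lib.MP_5d0ca0_al.Ins.NA Pool.Agent.Lib.MP_5d0ca0_al.Ins.open_ne_bot n s h1 h3 0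
    rw [h0] at h
    exact h
  · apply hsub
    · exact ⟨0, fun _ => ⊤, rfl, rfl, isClosed_univ, fun i => i.elim0⟩
    · intro h
      have h1 : ∀ a : Pool.Agent.Lib.MP_5d0ca0_al.Ins.GG (q := q), a = 1 := by
        intro a
        have h2 : a ∈ (⊤ : Subgroup (Pool.Agent.Lib.MP_5d0ca0_al.Ins.GG (q := q))) := trivial
        rw [h, Subgroup.mem_bot] at h2
        exact h2
      have h3 : Subsingleton (Pool.Agent.Lib.MP_5d0ca0_al.Ins.GG (q := q)) :=
        ⟨fun a b => by rw [h1 a, h1 b]⟩
      exact not_finite (Pool.Agent.Lib.MP_5d0ca0_al.Ins.GG (q := q))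

end Pool.Agent.Results.MP_5d0ca0_al.AllPrimes
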